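import Mathlib

namespace Pool.Agent.H.MP_5d8c24_an

open MeasureTheory Set Filter Topology

variable {α : Type} {mα : MeasurableSpace α} {μ : Measure α}

/-- convergence of set maps -/
def Conv (μ : Measure α) (F : ℕ → α → α) (S : α → α) : Prop :=
  ∀ B, MeasurableSet B → Tendsto (fun m => μ (symmDiff (F m ⁻¹' B) (S ⁻¹' B))) atTop (𝓝 0)

def Q1 (μ : Measure α) (T : α → α) : Prop :=
  ∀ A, MeasurableSet A → ∀ ε : ℝ, 0 < ε → ∃ n : ℕ,
    |μ.real (T^[n] ⁻¹' A ∩ A) - μ.real A ^ 2| < ε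

def Q2 (μ : Measure α) (T : α → α) : Prop :=
  ∀ A, MeasurableSet A → ∀ η : ENNReal, 0 < η → ∃ (p : ℕ) (S : α → α) (N : ℕ → ℕ), 0 < p ∧
    MeasurePreserving S μ μ ∧ Conv μ (fun m => T^[N m]) S ∧ Conv μ (fun m => T^[p * N m]) id ∧
    μ (symmDiff (S ⁻¹' A) (T ⁻¹' A)) < η

lemma lim_unique {X : ℕ → Set α} {Y Z : Set α}
    (hY : Tendsto (fun m => μ (symmDiff (X m) Y)) atTop (𝓝 0))
    (hZ : Tendsto (fun m => μ (symmDiff (X m) Z)) atTop (𝓝 0)) : Y =ᵐ[μ] Z := by
  rw [← measure_symmDiff_eq_zero_iff]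
  have h := hY.add hZ
  rw [add_zero] at h
  refine le_antisymm (ge_of_tendsto' h fun m => ?_) zero_le
  rw [symmDiff_comm (X m) Y]
  exact measure_symmDiff_le _ _ _

lemma Conv.comp {F F' : ℕ → α → α} {S S' : α → α} (hF : ∀ m, Measurable (F m))
    (hF' : ∀ m, MeasurePreserving (F' m) μ μ) (hS : Measurable S)
    (h : Conv μ F S) (h' : Conv μ F' S') : Conv μ (fun m => F m ∘ F' m) (S ∘ S') := by
  intro B hB
  have a := (h B hB).add (h' _ (hS hB))
  rw [add_zero] at a
  refine tendsto_of_tendsto_of_tendsto_of_le_of_le tendsto_const_nhds a (fun _ => zero_le)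
    fun m => ?_
  refine (measure_symmDiff_le _ (F' m ⁻¹' (S ⁻¹' B)) _).trans (add_le_add (le_of_eq ?_) le_rfl)
  rw [← (hF' m).measure_preimage ((hF m hB).symmDiff (hS hB)).nullMeasurableSet, preimage_symmDiff]
  rfl

lemma Conv.const (T : α → α) : Conv μ (fun _ => T) T := fun B _ => by simp

lemma lim_mem {F : MeasurableSpace α} {X : ℕ → Set α} {Y : Set α}
    (hX : ∀ m, ∃ t, MeasurableSet[F] t ∧ X m =ᵐ[μ] t)
    (hY : Tendsto (fun m => μ (symmDiff (X m) Y)) atTop (𝓝 0)) :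
    ∃ t, MeasurableSet[F] t ∧ Y =ᵐ[μ] t := by
  choose t ht ht' using hX
  have h1 : ∀ k : ℕ, ∃ m, μ (symmDiff (X m) Y) ≤ (2⁻¹ : ENNReal) ^ k := fun k =>
    (hY.eventually (ge_mem_nhds (ENNReal.pow_pos (by simp) k))).exists
  choose m hm using h1
  have h2 : ∑' k, μ (symmDiff (X (m k)) Y) ≠ ⊤ :=
    ne_top_of_le_ne_top (by simp) (ENNReal.tsum_le_tsum hm)
  refine ⟨⋃ k, ⋂ j, t (m (j + k)), MeasurableSet.iUnion fun k => MeasurableSet.iInter fun j =>
    ht _, ?_⟩
  filter_upwards [ae_eventually_notMem h2, ae_all_iff.2 ht'] with x hx hx'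
  obtain ⟨K, hK⟩ := eventually_atTop.1 hx
  have e : ∀ j, K ≤ j → (x ∈ t (m j) ↔ x ∈ Y) := fun j hj => by
    have a := hK j hj
    have b : x ∈ X (m j) ↔ x ∈ t (m j) := iff_of_eq (hx' (m j))
    rw [mem_symmDiff] at a
    tauto
  refine propext ⟨fun hy => mem_iUnion.2 ⟨K, mem_iInter.2 fun j => (e _ (by omega)).2 hy⟩,
    fun hy => ?_⟩
  obtain ⟨k, hk⟩ := mem_iUnion.1 hy
  exact (e (K + k) (by omega)).1 (mem_iInter.1 hk K)

/-- the invariant sets -/
@[reducible] def invAlg (F : MeasurableSpace α) {mα : MeasurableSpace α} (μ : Measure α) (S : α → α) :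
    MeasurableSpace α :=
  { MeasurableSet' := fun B => MeasurableSet[F] B ∧ S ⁻¹' B =ᵐ[μ] B
    measurableSet_empty := ⟨@MeasurableSet.empty _ F, ae_eq_refl _⟩
    measurableSet_compl := fun B hB => ⟨hB.1.compl, hB.2.compl⟩
    measurableSet_iUnion := fun f hf => ⟨MeasurableSet.iUnion fun i => (hf i).1, by
      rw [preimage_iUnion]
      exact Filter.EventuallyEq.countable_iUnion fun i => (hf i).2⟩ }

theorem final (F : MeasurableSpace α) {mα : MeasurableSpace α} {μ : Measure α}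
    [IsProbabilityMeasure μ] (T : α ≃ᵐ α) (hT : MeasurePreserving T μ μ)
    (h1 : Q1 μ T) (h2 : Q2 μ T) (hF : F ≤ mα)
    (hinv : ∀ s, MeasurableSet[F] s →
      (∃ t, MeasurableSet[F] t ∧ μ (symmDiff (T.toFun ⁻¹' s) t) = 0) ∧
      (∃ t, MeasurableSet[F] t ∧ μ (symmDiff (T.invFun ⁻¹' s) t) = 0))
    (hs : ∃ s, MeasurableSet[F] s ∧ 0 < μ s ∧ μ s < 1) :
    ∃ G : MeasurableSpace α, G ≤ F ∧
      (∀ s, MeasurableSet[G] s →
        (∃ t, MeasurableSet[G] t ∧ μ (symmDiff (T.toFun ⁻¹' s) t) = 0) ∧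
        (∃ t, MeasurableSet[G] t ∧ μ (symmDiff (T.invFun ⁻¹' s) t) = 0)) ∧
      (∃ s, MeasurableSet[G] s ∧ 0 < μ s ∧ μ s < 1) ∧
      ∃ s, MeasurableSet[F] s ∧ ∀ t, MeasurableSet[G] t → μ (symmDiff s t) ≠ 0 := by
  have eT : T.toFun = ⇑T := rfl
  have eT' : T.invFun = ⇑T.symm := rfl
  simp only [measure_symmDiff_eq_zero_iff, ne_eq, eT, eT'] at hinv ⊢
  obtain ⟨s, sF, s0, s1⟩ := hs
  have hq := hT.quasiMeasurePreserving
  have it : ∀ n : ℕ, ∀ B, MeasurableSet[F] B →
      ∃ t, MeasurableSet[F] t ∧ T^[n] ⁻¹' B =ᵐ[μ] t := by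
    intro n
    induction n with
    | zero => exact fun B hB => ⟨B, hB, ae_eq_refl _⟩
    | succ n ih =>
      intro B hB
      obtain ⟨t, ht, e⟩ := ih B hB
      obtain ⟨u, hu, e'⟩ := (hinv t ht).1
      exact ⟨u, hu, (hq.preimage_ae_eq e).trans e'⟩
  have a0 : 0 < μ.real s := ENNReal.toReal_pos s0.ne' (measure_ne_top _ _)
  have a1 : μ.real s < 1 := by
    have := (ENNReal.toReal_lt_toReal (measure_ne_top μ s) ENNReal.one_ne_top).2 s1
    simpa [Measure.real] using this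
  have ninv : 0 < μ (symmDiff (T ⁻¹' s) s) := by
    rw [pos_iff_ne_zero, ne_eq, measure_symmDiff_eq_zero_iff]
    intro e
    have e2 : ∀ n : ℕ, T^[n] ⁻¹' s =ᵐ[μ] s := fun n => by
      induction n with
      | zero => exact ae_eq_refl _
      | succ n ih => exact (hq.preimage_ae_eq ih).trans e
    obtain ⟨n, hn⟩ := h1 s (hF s sF) (μ.real s - μ.real s ^ 2) (by nlinarith)
    rw [measureReal_congr ((e2 n).inter (ae_eq_refl s)), inter_self] at hn
    exact absurd hn (not_lt.2 (le_abs_self _))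
  obtain ⟨p, S, N, p0, hS, c1, c2, cl⟩ := h2 s (hF s sF) _ ninv
  have hSq := hS.quasiMeasurePreserving
  have nS : ¬ S ⁻¹' s =ᵐ[μ] s := fun e => by
    refine absurd cl (not_lt.2 (le_of_eq (measure_congr ?_)))
    rw [symmDiff_comm]
    exact e.symm.symmDiff (ae_eq_refl _)
  have small : ∀ k : ℕ, ∃ B, MeasurableSet[F] B ∧ 0 < μ.real B ∧ μ.real B ≤ μ.real s ∧
      μ.real B ≤ ((1 + μ.real s) / 2) ^ k := by
    intro k
    induction k with
    | zero => exact ⟨s, sF, a0, le_rfl, by simp⟩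
    | succ k ih =>
      obtain ⟨B, hB, b0, b1, b2⟩ := ih
      have m0 : 0 < min (μ.real B) ((1 - μ.real s) / 2) := lt_min b0 (by linarith)
      obtain ⟨n, hn⟩ := h1 B (hF B hB) _ (mul_pos b0 m0)
      obtain ⟨t, ht, e⟩ := it n B hB
      rw [measureReal_congr (e.inter (ae_eq_refl B)), abs_lt] at hn
      have m1 := mul_le_mul_of_nonneg_left (min_le_left (μ.real B) ((1 - μ.real s) / 2)) b0.le
      have m2 := mul_le_mul_of_nonneg_left (min_le_right (μ.real B) ((1 - μ.real s) / 2)) b0.le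
      have m3 : μ.real (t ∩ B) ≤ μ.real B * ((1 + μ.real s) / 2) := by nlinarith [hn.2]
      refine ⟨t ∩ B, ht.inter hB, by nlinarith [hn.1],
        (measureReal_mono inter_subset_right).trans b1, m3.trans ?_⟩
      rw [pow_succ]
      exact mul_le_mul_of_nonneg_right b2 (by linarith)
  have Sm : ∀ B, MeasurableSet[F] B → ∃ t, MeasurableSet[F] t ∧ S ⁻¹' B =ᵐ[μ] t := fun B hB =>
    lim_mem (fun m => it (N m) B hB) (c1 B (hF B hB))
  have Sit : ∀ n : ℕ, ∀ B, MeasurableSet[F] B →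
      ∃ t, MeasurableSet[F] t ∧ S^[n] ⁻¹' B =ᵐ[μ] t := by
    intro n
    induction n with
    | zero => exact fun B hB => ⟨B, hB, ae_eq_refl _⟩
    | succ n ih =>
      intro B hB
      obtain ⟨t, ht, e⟩ := ih B hB
      obtain ⟨u, hu, e'⟩ := Sm t ht
      exact ⟨u, hu, (hSq.preimage_ae_eq e).trans e'⟩
  have cj : ∀ j : ℕ, Conv μ (fun m => T^[j * N m]) S^[j] := fun j => by
    induction j with
    | zero => simpa using Conv.const (μ := μ) id
    | succ j ih =>
      have := ih.comp (fun m => T.measurable.iterate _) (fun m => hT.iterate _)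
        (hS.measurable.iterate j) c1
      simpa only [← Function.iterate_add, add_one_mul, ← Function.iterate_succ] using this
  have per : ∀ B, MeasurableSet B → S^[p] ⁻¹' B =ᵐ[μ] B := fun B hB =>
    lim_unique (cj p B hB) (c2 B hB)
  have com : ∀ B, MeasurableSet B → S ⁻¹' (T ⁻¹' B) =ᵐ[μ] T ⁻¹' (S ⁻¹' B) := fun B hB => by
    have a := (Conv.const (μ := μ) T).comp (fun _ => T.measurable) (fun m => hT.iterate _)
      T.measurable c1 B hB
    have b := c1.comp (fun m => T.measurable.iterate _) (fun _ => hT) hS.measurable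
      (Conv.const T) B hB
    simp only [← Function.iterate_succ'] at a
    simp only [← Function.iterate_succ] at b
    exact lim_unique a b
  refine ⟨invAlg F μ S, fun B hB => hB.1, fun B hB => ⟨?_, ?_⟩, ?_, s, sF, fun t ht e => nS ?_⟩
  · obtain ⟨t, ht, e⟩ := (hinv B hB.1).1
    exact ⟨t, ⟨ht, (hSq.preimage_ae_eq e.symm).trans ((com B (hF B hB.1)).trans
      ((hq.preimage_ae_eq hB.2).trans e))⟩, e⟩
  · obtain ⟨t, ht, e⟩ := (hinv B hB.1).2
    refine ⟨t, ⟨ht, ?_⟩, e⟩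
    have e1 : T ⁻¹' t =ᵐ[μ] B := by
      have := hq.preimage_ae_eq e.symm
      rwa [← preimage_comp, T.symm_comp_self, preimage_id] at this
    have e2 : T ⁻¹' (S ⁻¹' t) =ᵐ[μ] T ⁻¹' t :=
      (com t (hF t ht)).symm.trans ((hSq.preimage_ae_eq e1).trans (hB.2.trans e1.symm))
    have e3 := (hT.symm T).quasiMeasurePreserving.preimage_ae_eq e2
    rwa [← preimage_comp, ← preimage_comp (f := T.symm), T.self_comp_symm, preimage_id,
      preimage_id] at e3
  · obtain ⟨k, hk⟩ := exists_pow_lt_of_lt_one (show (0 : ℝ) < 1 / p by positivity)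
      (show (1 + μ.real s) / 2 < 1 by linarith)
    obtain ⟨B, hB, b0, -, b2⟩ := small k
    choose t ht e using fun j : ℕ => Sit j B hB
    have eC : (⋃ j ∈ Finset.range p, S^[j] ⁻¹' B) =ᵐ[μ] ⋃ j ∈ Finset.range p, t j :=
      Filter.EventuallyEq.countable_iUnion fun j =>
        Filter.EventuallyEq.countable_iUnion fun _ => e j
    refine ⟨⋃ j ∈ Finset.range p, t j, ⟨MeasurableSet.iUnion fun j =>
      MeasurableSet.iUnion fun _ => ht j, ?_⟩, ?_, ?_⟩
    · refine (hSq.preimage_ae_eq eC.symm).trans (EventuallyEq.trans ?_ eC)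
      filter_upwards [per B (hF B hB)] with x hx
      have hx' : S^[p] x ∈ B ↔ x ∈ B := iff_of_eq hx
      refine propext ⟨fun h => ?_, fun h => ?_⟩
      · obtain ⟨j, hj, h⟩ := mem_iUnion₂.1 h
        rw [Finset.mem_range] at hj
        rcases (Nat.succ_le_of_lt hj).lt_or_eq with l | l
        · exact mem_iUnion₂.2 ⟨j + 1, Finset.mem_range.2 l, h⟩
        · refine mem_iUnion₂.2 ⟨0, Finset.mem_range.2 p0, hx'.1 ?_⟩
          rw [← l]; exact h
      · obtain ⟨j, hj, h⟩ := mem_iUnion₂.1 h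
        rw [Finset.mem_range] at hj
        cases j with
        | zero =>
          refine mem_iUnion₂.2 ⟨p - 1, Finset.mem_range.2 (by omega), ?_⟩
          have := hx'.2 h
          rwa [show p = p - 1 + 1 by omega] at this
        | succ j => exact mem_iUnion₂.2 ⟨j, Finset.mem_range.2 (by omega), h⟩
    · rw [← measure_congr eC]
      refine lt_of_lt_of_le (pos_iff_ne_zero.2 fun z => ?_) (measure_mono (s := B) fun x hx =>
        mem_iUnion₂.2 ⟨0, Finset.mem_range.2 p0, hx⟩)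
      rw [Measure.real, z] at b0
      simp at b0
    · rw [← measure_congr eC, ← ENNReal.toReal_lt_toReal (measure_ne_top _ _) ENNReal.one_ne_top]
      refine (measureReal_biUnion_finset_le _ _).trans_lt ?_
      rw [Finset.sum_congr rfl fun j _ =>
        (hS.iterate j).measureReal_preimage (hF B hB).nullMeasurableSet]
      simp only [Finset.sum_const, Finset.card_range, nsmul_eq_mul, ENNReal.toReal_one]
      have := b2.trans_lt hk
      rwa [lt_div_iff₀ (by positivity), mul_comm] at this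
  · exact (hSq.preimage_ae_eq e).trans (ht.2.trans e.symm)

end Pool.Agent.H.MP_5d8c24_an
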