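import Mathlib
import Pool.Agent.H.MP_20f905_an.D

namespace Pool.Agent.H.MP_5d8c24_an

open MeasureTheory Set Filter Topology Pool.Agent.H.MP_a7cd30_an Pool.Agent.H.MP_20f905_an

lemma device (h p : ℕ) [NeZero h] [NeZero p] (b : ℕ → ZMod h) :
    ∃ E : ZMod (h * p) ≃ ZMod h × Fin p,
      av (fun t => ind ((E (t + 1)).1 ≠ (E t).1 + 1)) ≤ 1 / h ∧
      ∀ t, (E (t + (h : ℕ))).1 = (E t).1 + (b (((E t).2.val + 1) % p) - b (E t).2.val) := by
  have h0 := NeZero.pos h
  have p0 := NeZero.pos p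
  let φ : ZMod (h * p) →+* ZMod h := ZMod.castHom (dvd_mul_right h p) (ZMod h)
  have φv : ∀ t, φ t = (t.val : ZMod h) := fun t => by
    rw [ZMod.natCast_val]; exact ZMod.castHom_apply t
  let P : ZMod (h * p) → Fin p := fun t =>
    ⟨t.val / h, Nat.div_lt_of_lt_mul (ZMod.val_lt t)⟩
  have inj : ∀ a : ℕ → ZMod h, Function.Injective fun t => (φ t + a (P t), P t) :=
    fun a t t' e => by
    have e2 : P t = P t' := congrArg Prod.snd e
    have e1 : φ t + a (P t) = φ t' + a (P t') := congrArg Prod.fst e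
    rw [e2, add_left_inj, φv, φv, ZMod.natCast_eq_natCast_iff'] at e1
    have e3 : t.val / h = t'.val / h := congrArg Fin.val e2
    apply ZMod.val_injective
    rw [← Nat.div_add_mod t.val h, ← Nat.div_add_mod t'.val h, e1, e3]
  let E : (ℕ → ZMod h) → ZMod (h * p) ≃ ZMod h × Fin p := fun a => Equiv.ofBijective _
    ((Fintype.bijective_iff_injective_and_card _).2 ⟨inj a, by simp⟩)
  have E1 : ∀ a t, (E a t).1 = φ t + a (P t) := fun _ _ => rfl
  have E2 : ∀ a t, (E a t).2 = P t := fun _ _ => rfl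
  refine ⟨E b, ?_, fun t => ?_⟩
  · refine (av_le (g := fun t => ind ((E 0 t).1 = -1)) fun t => ?_).trans ?_
    · by_cases c : (E 0 t).1 = -1
      · rw [ind_pos c]; exact ind_le_one _
      rw [ind_neg c, ind_neg]
      rw [not_not, E1, E1, map_add, map_one, add_right_comm, add_left_inj, add_right_inj]
      rw [E1, Pi.zero_apply, add_zero, φv, ← add_eq_zero_iff_eq_neg] at c
      have d : ¬ h ∣ t.val + 1 := fun d => c (by
        have := (ZMod.natCast_eq_zero_iff (t.val + 1) h).2 d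
        exact_mod_cast this)
      have v : (t + 1).val = t.val + 1 := by
        have e : t + 1 = ((t.val + 1 : ℕ) : ZMod (h * p)) := by simp
        have := ZMod.val_lt t
        by_cases z : t.val + 1 = h * p
        · exact absurd (by rw [z]; exact dvd_mul_right _ _) d
        · rw [e, ZMod.val_cast_of_lt (by omega)]
      simp only [P, v, Nat.succ_div_of_not_dvd d]
    · rw [av_equiv (E 0) fun x => ind (x.1 = -1), av_prod]
      simp only [av_const, av_single, ZMod.card, le_refl]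
  · have z : φ (h : ℕ) = 0 := by rw [map_natCast, ZMod.natCast_self]
    have e : (P (t + (h : ℕ))).val = ((P t).val + 1) % p := by
      have e : t + (h : ℕ) = ((t.val + h : ℕ) : ZMod (h * p)) := by simp
      simp only [P]
      rw [e, ZMod.val_natCast, Nat.mod_mul_right_div_self, Nat.add_div_right _ h0]
    rw [E1, E1, E2, map_add, z, e]
    ring

/-- powers -/
def pw (T : G) : ℕ → G
  | 0 => ⟨MeasurableEquiv.refl ℝ, MeasurePreserving.id mu⟩
  | n + 1 => comp (pw T n) T

lemma pw_eq (T : G) (n : ℕ) : ⇑(pw T n).1 = (⇑T.1)^[n] := by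
  induction n with
  | zero => rfl
  | succ n ih => rw [Function.iterate_succ, ← ih]; rfl

lemma cont_pw (n : ℕ) : Continuous fun T : G => pw T n := by
  induction n with
  | zero => exact continuous_const
  | succ n ih => exact continuous_iff_continuousAt.2 fun T => t_comp (ih.tendsto T) tendsto_id

lemma cont_inter {A B : Set ℝ} (hA : MeasurableSet A) (hB : MeasurableSet B) :
    Continuous fun S : G => mu.real (S.1 ⁻¹' A ∩ B) := by
  refine continuous_iff_le_induced.2 (le_trans tau_eq.ge ?_)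
  exact iInf_le_of_le _ (iInf_le_of_le hA (iInf_le_of_le _ (iInf_le_of_le hB le_rfl)))

/-- mismatch probability -/
noncomputable def dl (a : ℕ) [NeZero a] (f : ℝ → ℝ) : ℝ := mu.real {x | fin a (f x) ≠ fin a x}

lemma cont_dl (a : ℕ) [NeZero a] (n : ℕ) : Continuous fun T : G => dl a (⇑T.1)^[n] := by
  have m1 : ∀ u, MeasurableSet {x | fin a x = u} := fun u => fin_meas (measurableSet_singleton u)
  have : Continuous fun S : G => ∑ u, mu.real (S.1 ⁻¹' {x | fin a x = u}ᶜ ∩ {x | fin a x = u}) :=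
    continuous_finsetSum _ fun u _ => cont_inter (m1 u).compl (m1 u)
  refine (this.comp (cont_pw n)).congr fun T => ?_
  rw [dl, fibers (S := {x | fin a ((⇑T.1)^[n] x) ≠ fin a x})
    (measurableSet_eq_fun (fin_meas.comp (T.1.measurable.iterate n)) fin_meas).compl
    _ m1, Function.comp, pw_eq]
  refine Finset.sum_congr rfl fun u _ => congrArg _ ?_
  ext x
  simp only [mem_inter_iff, mem_preimage, mem_compl_iff, mem_ofPred_eq]
  exact and_congr_left fun hx => by rw [hx]

lemma res_imp {X : Type} [TopologicalSpace X] {O V : Set X} (hV : IsOpen V)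
    (h : O ⊆ closure V) : ∀ᶠ x in residual X, x ∈ O → x ∈ V := by
  have : V ∪ (closure O)ᶜ ∈ residual X := by
    refine residual_of_dense_open (hV.union isClosed_closure.isOpen_compl) fun x => ?_
    rw [closure_union]
    by_cases c : x ∈ closure O
    · exact Or.inl (closure_minimal h isClosed_closure c)
    · exact Or.inr (subset_closure c)
  filter_upwards [this] with x hx hxO
  exact hx.resolve_right fun c => c (subset_closure hxO)

section
variable {h : ℕ} [NeZero h]

lemma it_pos (e : ZMod h ≃ Fin h) (n : ℕ) {x : ℝ} (hx : x ∈ Ico (0 : ℝ) 1) :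
    (⇑(IE e (Equiv.addRight 1)).1)^[n] x ∈ Ico (0 : ℝ) 1 ∧
    pos e ((⇑(IE e (Equiv.addRight 1)).1)^[n] x) = pos e x + n ∧
    (⇑(IE e (Equiv.addRight 1)).1)^[n] x - (fin h ((⇑(IE e (Equiv.addRight 1)).1)^[n] x) : ℝ) / h
      = x - (fin h x : ℝ) / h := by
  induction n with
  | zero => simpa using hx
  | succ n ih =>
    obtain ⟨a1, a2, a3⟩ := ih
    rw [Function.iterate_succ_apply']
    obtain ⟨b1, b2⟩ := (IE_pos e (Equiv.addRight 1) a1).1
    refine ⟨b1, by rw [b2, a2]; simp [add_assoc], ?_⟩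
    rw [← a3]
    generalize (⇑(IE e (Equiv.addRight 1)).1)^[n] x = y at a1
    have e1 : (IE e (Equiv.addRight 1)).1 y = ie (e.permCongr (Equiv.addRight 1)) y := rfl
    rw [e1, (ie_mem _ a1).2, ie, if_pos a1]
    ring

lemma it_per (e : ZMod h ≃ Fin h) (a : ℕ) [NeZero a] :
    dl a (⇑(IE e (Equiv.addRight 1)).1)^[h] = 0 := by
  rw [dl, real_congr (T := ∅)]
  · simp
  intro x hx
  obtain ⟨-, a2, a3⟩ := it_pos e h hx
  rw [ZMod.natCast_self, add_zero] at a2
  have a4 := e.symm.injective a2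
  rw [a4, sub_left_inj] at a3
  simp [a3]

end

lemma fin_pos {a M : ℕ} [NeZero a] [NeZero M] (e : ZMod (a * M) ≃ Fin (a * M)) {x : ℝ}
    (hx : x ∈ Ico (0 : ℝ) 1) : fin a x = (e (pos e x)).divNat := by
  simp only [pos, Equiv.apply_symm_apply]
  exact (Fin.ext (fin_div hx)).symm

lemma refine_dev {h : ℕ} [NeZero h] (e : ZMod h ≃ Fin h) (p : ℕ) [NeZero p] (b : ℕ → ZMod h) :
    ∃ (E : ZMod (h * p) ≃ ZMod h × Fin p) (e' : ZMod (h * p) ≃ Fin (h * p)),
      av (fun t => ind ((E (t + 1)).1 ≠ (E t).1 + 1)) ≤ 1 / h ∧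
      (∀ t, (E (t + (h : ℕ))).1 = (E t).1 + (b (((E t).2.val + 1) % p) - b (E t).2.val)) ∧
      (∀ x ∈ Ico (0 : ℝ) 1, pos e x = (E (pos e' x)).1) ∧
      dist (IE e' (Equiv.addRight 1)) (IE e (Equiv.addRight 1)) ≤ 1 / h + √(1 / h) := by
  obtain ⟨E, h1, h2⟩ := device h p b
  have hl : ∀ t, (e (E t).1).val =
      ((E.trans ((e.prodCongr (Equiv.refl _)).trans finProdFinEquiv)) t).val / p := fun t =>
    (congrArg Fin.val (congrArg Prod.fst
      (finProdFinEquiv.symm_apply_apply (e (E t).1, (E t).2)))).symm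
  exact ⟨E, _, h1, h2, fun x hx => pos_l hl hx, dist_IE hl h1⟩

lemma small_h {ε : ℝ} (hε : 0 < ε) : ∃ η > 0, η ≤ ε ∧ ∀ y, 0 ≤ y → y ≤ η → y + √y ≤ ε := by
  refine ⟨min (ε / 2) ((ε / 2) ^ 2), by positivity, (min_le_left _ _).trans (by linarith),
    fun y _ hy => ?_⟩
  have := Real.sqrt_le_sqrt (hy.trans (min_le_right _ _))
  rw [Real.sqrt_sq (by positivity)] at this
  linarith [hy.trans (min_le_left _ _)]

lemma genB (a : ℕ) [NeZero a] {ε : ℝ} (hε : 0 < ε) :
    ∀ᶠ T : G in residual G, ∃ p, 0 < p ∧ dl a (⇑T.1)^[p] < ε := by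
  have o : IsOpen {T : G | ∃ p, 0 < p ∧ dl a (⇑T.1)^[p] < ε} := by
    simp only [ofPred_exists]
    exact isOpen_iUnion fun p => isOpen_const.inter (isOpen_lt (cont_dl a p) continuous_const)
  refine residual_of_dense_open o (Metric.dense_iff.2 fun T r hr => ?_)
  obtain ⟨M, _, e, -, -, h⟩ := dens T 1 hr
  exact ⟨_, h, 1 * M, NeZero.pos _, by rw [it_per]; exact hε⟩

lemma genA (a a' p N : ℕ) [NeZero a] [NeZero a'] [NeZero p] {ε ε' : ℝ} (hε : 0 < ε)
    (hε' : 0 < ε') : ∀ᶠ T : G in residual G, dl a (⇑T.1)^[p * N] < ε →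
      ∃ d, dl a' (⇑T.1)^[p * (N + d)] < ε' ∧ dl a (⇑T.1)^[d] < 2 * ε := by
  have o1 : IsOpen {T : G | dl a (⇑T.1)^[p * N] < ε} := isOpen_lt (cont_dl _ _) continuous_const
  have o2 : IsOpen {T : G | ∃ d, dl a' (⇑T.1)^[p * (N + d)] < ε' ∧ dl a (⇑T.1)^[d] < 2 * ε} := by
    simp only [ofPred_exists]
    exact isOpen_iUnion fun d => (isOpen_lt (cont_dl _ _) continuous_const).inter
      (isOpen_lt (cont_dl _ _) continuous_const)
  refine res_imp (O := {T : G | dl a (⇑T.1)^[p * N] < ε}) o2 fun T hT => Metric.mem_closure_iff.2 fun r hr => ?_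
  obtain ⟨ρ, ρ0, hρ⟩ := Metric.isOpen_iff.1 o1 T hT
  obtain ⟨η, η0, η1, η2⟩ := small_h (half_pos hr)
  obtain ⟨M, _, e, -, h1, h2⟩ := dens T a (ε := min (min η ρ) (min (ε / (2 * N + 1)) (1 / (N + 1))))
    (by positivity)
  simp only [le_min_iff, lt_min_iff] at h1 h2
  obtain ⟨E, e', k1, k2, k3, k4⟩ := refine_dev e p fun j => (j : ZMod (a * M)) * N
  have h0 := hpos (a * M)
  have hN : N ≤ a * M := by
    have := h1.2.2
    rw [div_le_div_iff₀ h0 (by positivity)] at this
    have : (N : ℝ) ≤ (a * M : ℕ) := by linarith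
    exact_mod_cast this
  refine ⟨IE e' (Equiv.addRight 1), ⟨a * M - N, ?_, ?_⟩, ?_⟩
  · rw [Nat.add_sub_cancel' hN, mul_comm p, it_per]; exact hε'
  · have b1 : dl a (⇑(IE e (Equiv.addRight 1)).1)^[p * N] < ε := hρ (Metric.mem_ball.2 h2.1.2)
    have b2 : dl a (⇑(IE e (Equiv.addRight 1)).1)^[p * N] =
        av fun u => ind ((e (u + (p * N : ℕ))).divNat ≠ (e u).divNat) := by
      rw [dl, ← lawp e fun u => (e (u + (p * N : ℕ))).divNat ≠ (e u).divNat]
      refine real_congr fun x hx => ?_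
      obtain ⟨c1, c2, -⟩ := it_pos e (p * N) hx
      rw [mem_ofPred_eq, mem_ofPred_eq, fin_pos e c1, fin_pos e hx, c2]
    have b3 : dl a (⇑(IE e' (Equiv.addRight 1)).1)^[a * M - N] =
        av fun t => ind ((e (E (t + (a * M - N : ℕ))).1).divNat ≠ (e (E t).1).divNat) := by
      rw [dl, ← lawp e' fun t => (e (E (t + (a * M - N : ℕ))).1).divNat ≠ (e (E t).1).divNat]
      refine real_congr fun x hx => ?_
      obtain ⟨c1, c2, -⟩ := it_pos e' (a * M - N) hx
      rw [mem_ofPred_eq, mem_ofPred_eq, fin_pos e c1, fin_pos e hx, k3 _ c1, k3 _ hx, c2]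
    have b4 := gd_bound (l := fun t => (E t).1) k1 N
    have b5 : ∀ t, ind ((e (E (t + (a * M - N : ℕ))).1).divNat ≠ (e (E t).1).divNat) ≤
        ind (¬ Gd (fun t => (E t).1) N (t + (a * M : ℕ))) +
        ind ((e ((E t).1 - (p * N : ℕ) + (p * N : ℕ))).divNat ≠
          (e ((E t).1 - (p * N : ℕ))).divNat) := by
      intro t
      have n1 := ind_nonneg (¬ Gd (fun t => (E t).1) N (t + (a * M : ℕ)))
      have n2 := ind_nonneg ((e ((E t).1 - (p * N : ℕ) + (p * N : ℕ))).divNat ≠
          (e ((E t).1 - (p * N : ℕ))).divNat)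
      by_cases c : Gd (fun t => (E t).1) N (t + (a * M : ℕ))
      swap
      · rw [ind_pos c]
        linarith [ind_le_one ((e (E (t + (a * M - N : ℕ))).1).divNat ≠ (e (E t).1).divNat)]
      have c1 := c (-N) (by simp)
      dsimp only at c1
      have c2 : t + (a * M - N : ℕ) = t + (a * M : ℕ) + ((-N : ℤ) : ZMod (a * M * p)) := by
        rw [Nat.cast_sub hN]; push_cast; ring
      rw [c2, c1, k2]
      rcases (Nat.succ_le_of_lt (E t).2.2).lt_or_eq with l | l
      · rw [Nat.mod_eq_of_lt l, ind_neg]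
        · linarith
        · rw [not_not]; congr 2; push_cast; ring
      · rw [sub_add_cancel, ind_neg (not_not.2 c), zero_add]
        have l' : (E t).2.val + 1 = p := l
        have : (E t).1 + (((((E t).2.val + 1) % p : ℕ) : ZMod (a * M)) * N -
            ((E t).2.val : ZMod (a * M)) * N) + ((-N : ℤ) : ZMod (a * M)) =
            (E t).1 - (p * N : ℕ) := by
          rw [l', Nat.mod_self]
          have : (p : ZMod (a * M)) = (E t).2.val + 1 := by exact_mod_cast congrArg _ l'.symm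
          push_cast at this ⊢
          rw [this]; ring
        rw [this]
        exact le_of_eq (congrArg ind (propext ne_comm))
    have b6 := av_le b5
    rw [av_add, av_shift ((a * M : ℕ) : ZMod (a * M * p))
      fun t => ind (¬ Gd (fun t => (E t).1) N t),
      av_equiv E fun x => ind ((e (x.1 - (p * N : ℕ) + (p * N : ℕ))).divNat ≠
          (e (x.1 - (p * N : ℕ))).divNat), av_prod] at b6
    simp only [av_const] at b6
    have b8 := av_equiv (Equiv.subRight ((p * N : ℕ) : ZMod (a * M)))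
      fun u => ind ((e (u + (p * N : ℕ))).divNat ≠ (e u).divNat)
    simp only [Equiv.subRight_apply] at b8
    rw [b8, ← b2] at b6
    have b7 : 2 * N * (1 / ((a * M : ℕ) : ℝ)) ≤ ε := by
      have := mul_le_mul_of_nonneg_left h1.2.1 (show (0 : ℝ) ≤ 2 * N + 1 by positivity)
      rw [mul_div_cancel₀ _ (by positivity)] at this
      have : (0 : ℝ) ≤ 1 / ((a * M : ℕ) : ℝ) := by positivity
      linarith
    rw [b3]
    linarith
  · have := η2 _ (by positivity) h1.1.1
    have := dist_triangle_right T (IE e' (Equiv.addRight 1)) (IE e (Equiv.addRight 1))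
    rw [dist_comm T (IE e _)] at this
    linarith [h2.1.1]

lemma genC (a : ℕ) [NeZero a] (F : Fin a → Prop) {ε : ℝ} (hε : 0 < ε) :
    ∀ᶠ T : G in residual G, ∃ n, |mu.real ((⇑T.1)^[n] ⁻¹' {x | F (fin a x)} ∩ {x | F (fin a x)}) -
      mu.real {x | F (fin a x)} ^ 2| < ε := by
  have m : MeasurableSet {x | F (fin a x)} := fin_meas (MeasurableSet.of_discrete (s := {u | F u}))
  have o : IsOpen {T : G | ∃ n, |mu.real ((⇑T.1)^[n] ⁻¹' {x | F (fin a x)} ∩ {x | F (fin a x)}) -
      mu.real {x | F (fin a x)} ^ 2| < ε} := by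
    simp only [ofPred_exists, ← pw_eq]
    exact isOpen_iUnion fun n => isOpen_lt
      (((cont_inter m m).comp (cont_pw n)).sub continuous_const).abs continuous_const
  refine residual_of_dense_open o (Metric.dense_iff.2 fun T r hr => ?_)
  obtain ⟨η, η0, η1, η2⟩ := small_h (half_pos hr)
  obtain ⟨M, _, e, -, h1, h2⟩ := dens T a (ε := min η (ε / 2)) (by positivity)
  simp only [le_min_iff, lt_min_iff] at h1 h2
  obtain ⟨E, e', -, k2, k3, k4⟩ := refine_dev e (a * M)
    fun j => ∑ i ∈ Finset.range j, (i : ZMod (a * M))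
  refine ⟨IE e' (Equiv.addRight 1), ?_, a * M, ?_⟩
  · have := η2 _ (by positivity) h1.1
    have := dist_triangle (IE e' (Equiv.addRight 1)) (IE e (Equiv.addRight 1)) T
    rw [Metric.mem_ball]
    linarith [h2.1]
  let f : ZMod (a * M) → Prop := fun u => F (e u).divNat
  have b1 : mu.real {x | F (fin a x)} = av fun u => ind (f u) := by
    rw [← lawp e f]
    exact real_congr fun x hx => by rw [mem_ofPred_eq, mem_ofPred_eq, fin_pos e hx]
  have b2 : mu.real ((⇑(IE e' (Equiv.addRight 1)).1)^[a * M] ⁻¹' {x | F (fin a x)} ∩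
      {x | F (fin a x)}) = av fun t => ind (f (E (t + (a * M : ℕ))).1 ∧ f (E t).1) := by
    rw [← lawp e' fun t => f (E (t + (a * M : ℕ))).1 ∧ f (E t).1]
    refine real_congr fun x hx => ?_
    obtain ⟨c1, c2, -⟩ := it_pos e' (a * M) hx
    rw [mem_inter_iff, mem_preimage, mem_ofPred_eq, mem_ofPred_eq, mem_ofPred_eq, fin_pos e c1,
      fin_pos e hx, k3 _ c1, k3 _ hx, c2]
  have h0 := NeZero.pos (a * M)
  have b3 : ∀ t, |ind (f (E (t + (a * M : ℕ))).1 ∧ f (E t).1) -
      ind (f (E t).1) * ind (f ((E t).1 + ((E t).2.val : ℕ)))| ≤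
      ind ((E t).2 = ⟨a * M - 1, by omega⟩) := by
    intro t
    have e1 : ∀ P Q : Prop, ind P * ind Q = ind (Q ∧ P) := fun P Q => by
      by_cases p : P <;> by_cases q : Q <;> simp [ind, p, q]
    rw [e1]
    by_cases c : (E t).2 = ⟨a * M - 1, by omega⟩
    · rw [ind_pos c, abs_le]
      constructor <;> linarith [ind_nonneg (f (E (t + (a * M : ℕ))).1 ∧ f (E t).1),
        ind_le_one (f (E (t + (a * M : ℕ))).1 ∧ f (E t).1),
        ind_nonneg (f ((E t).1 + ((E t).2.val : ℕ)) ∧ f (E t).1),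
        ind_le_one (f ((E t).1 + ((E t).2.val : ℕ)) ∧ f (E t).1)]
    · have l : (E t).2.val + 1 < a * M := by
        have := (E t).2.2
        have : (E t).2.val ≠ a * M - 1 := fun q => c (Fin.ext q)
        omega
      rw [k2, Nat.mod_eq_of_lt l, Finset.sum_range_succ, add_sub_cancel_left, sub_self, abs_zero]
      exact ind_nonneg _
  have b4 := av_abs b3
  rw [av_equiv E fun x => ind (f x.1) * ind (f (x.1 + (x.2.val : ℕ))),
    av_equiv E fun x => ind (x.2 = ⟨a * M - 1, by omega⟩), av_prod, av_prod] at b4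
  have b5 : ∀ u : ZMod (a * M), av (fun j : Fin (a * M) => ind (f (u + (j.val : ℕ)))) =
      av fun u => ind (f u) := fun u => by
    have := sum_zmod (fun u => ind (f u)) u
    rw [← Fin.sum_univ_eq_sum_range (fun j => ind (f (u + (j : ℕ))))] at this
    rw [av, this, Fintype.card_fin, mul_div_cancel_left₀ _ (hpos _).ne']
  simp only [av_mul, b5, av_single, av_const, Fintype.card_fin] at b4
  have b6 : (av fun u => ind (f u) * av fun u => ind (f u)) =
      (av fun u => ind (f u)) * av fun u => ind (f u) := by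
    rw [← av_mul]; congr 1; funext u; ring
  rw [b6] at b4
  rw [b1, b2, sq]
  linarith [h1.2]

end Pool.Agent.H.MP_5d8c24_an
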