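import Mathlib
import Pool.Agent.H.MP_5d8c24_an.A
import Pool.Agent.H.MP_5d8c24_an.B

namespace Pool.Agent.H.MP_5d8c24_an

open MeasureTheory Set Filter Topology Pool.Agent.H.MP_a7cd30_an Pool.Agent.H.MP_20f905_an

lemma conv_of {F : ℕ → ℝ → ℝ} (hF : ∀ i, MeasurePreserving (F i) mu mu) {S : ℝ → ℝ}
    (hS : MeasurePreserving S mu mu)
    (h : Tendsto (fun i => koop (F i) (hF i) idL) atTop (𝓝 (koop S hS idL))) : Conv mu F S := by
  intro B hB
  have a := tendsto_iff_dist_tendsto_zero.1 (tendsto_koop hF hS h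
    (indicatorConstLp 2 hB (measure_ne_top _ _) (1 : ℝ)))
  have b := ENNReal.tendsto_ofReal (a.pow 2)
  rw [zero_pow two_ne_zero, ENNReal.ofReal_zero] at b
  refine b.congr fun i => ?_
  have e : ∀ (f : ℝ → ℝ) (hf : MeasurePreserving f mu mu),
      koop f hf (indicatorConstLp 2 hB (measure_ne_top _ _) (1 : ℝ)) =
      indicatorConstLp 2 (hB.preimage hf.measurable) (measure_ne_top _ _) 1 := fun _ _ => rfl
  rw [e, e, dist_indicatorConstLp_eq_norm, norm_indicatorConstLp (by simp) (by simp), norm_one,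
    one_mul, ← Real.rpow_natCast, ← Real.rpow_mul measureReal_nonneg,
    ← ofReal_measureReal (measure_ne_top mu _)]
  simp

noncomputable def ek (k : ℕ) : ℝ := (1 / 2 ^ k) ^ 2 / 2

lemma ek_pos (k : ℕ) : 0 < ek k := by unfold ek; positivity

lemma close2 {f g : ℝ → ℝ} (hf : MeasurePreserving f mu mu) (hg : MeasurePreserving g mu mu)
    (k : ℕ) (h : mu.real {x | fin (2 ^ k) (f x) ≠ fin (2 ^ k) (g x)} ≤ 2 * ek k) :
    dist (koop f hf idL) (koop g hg idL) ≤ 2 / 2 ^ k := by
  refine (close hf hg h).trans (le_of_eq ?_)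
  rw [ek, mul_div_cancel₀ _ two_ne_zero, Real.sqrt_sq (by positivity)]
  push_cast; ring

lemma chain (T : G)
    (hA : ∀ p N k : ℕ, dl (2 ^ k) (⇑T.1)^[(p + 1) * N] < ek k →
      ∃ d, dl (2 ^ (k + 1)) (⇑T.1)^[(p + 1) * (N + d)] < ek (k + 1) ∧
        dl (2 ^ k) (⇑T.1)^[d] < 2 * ek k)
    (hB : ∀ k : ℕ, ∃ p, 0 < p ∧ dl (2 ^ k) (⇑T.1)^[p] < ek k) (K : ℕ) :
    ∃ (p : ℕ) (S : ℝ → ℝ) (N : ℕ → ℕ) (hS : MeasurePreserving S mu mu), 0 < p ∧
      Conv mu (fun m => (⇑T.1)^[N m]) S ∧ Conv mu (fun m => (⇑T.1)^[p * N m]) id ∧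
      dist (koop S hS idL) (koop T.1 T.2 idL) ≤ 4 / 2 ^ K := by
  obtain ⟨p, p0, hp⟩ := hB K
  obtain ⟨p, rfl⟩ := Nat.exists_eq_add_one_of_ne_zero p0.ne'
  choose! d hd using hA p
  let N : ℕ → ℕ := fun m => Nat.rec 1 (fun m n => n + d n (K + m)) m
  have N1 : ∀ m, N (m + 1) = N m + d (N m) (K + m) := fun _ => rfl
  have I : ∀ m, dl (2 ^ (K + m)) (⇑T.1)^[(p + 1) * N m] < ek (K + m) := fun m => by
    induction m with
    | zero => simpa [N] using hp
    | succ m ih => exact (hd _ _ ih).1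
  have D : ∀ m, dist (koop _ (T.2.iterate (N m)) idL) (koop _ (T.2.iterate (N (m + 1))) idL) ≤
      4 / 2 ^ K / 2 / 2 ^ m := fun m => by
    rw [dist_comm]
    refine (close2 _ _ (K + m) (le_trans (le_of_eq ?_) (hd _ _ (I m)).2.le)).trans
      (le_of_eq (by rw [pow_add]; field_simp; norm_num))
    rw [dl, ← (T.2.iterate (N m)).measureReal_preimage (s := {x | fin (2 ^ (K + m))
      ((⇑T.1)^[d (N m) (K + m)] x) ≠ fin (2 ^ (K + m)) x}) (measurableSet_eq_fun
        (fin_meas.comp (T.1.measurable.iterate _)) fin_meas).compl.nullMeasurableSet, N1,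
      add_comm (N m), Function.iterate_add]
    rfl
  obtain ⟨u, hu⟩ := cauchySeq_tendsto_of_complete (cauchySeq_of_le_geometric_two D)
  have hS := mp_of_tendsto (fun m => T.2.iterate (N m)) hu
  have e1 : koop u hS idL = u := Lp.ext (koop_id hS)
  refine ⟨p + 1, u, N, hS, p0, conv_of (fun m => T.2.iterate _) hS (by rwa [e1]),
    conv_of (fun m => T.2.iterate _) (MeasurePreserving.id mu) ?_, ?_⟩
  · refine tendsto_iff_dist_tendsto_zero.2 (squeeze_zero (fun _ => dist_nonneg)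
      (g := fun m => 2 / 2 ^ K * (1 / 2) ^ m) (fun m => ?_) ?_)
    · refine (close2 _ _ (K + m) ((I m).le.trans (by linarith [ek_pos (K + m)]))).trans
        (le_of_eq (by rw [pow_add, one_div_pow]; field_simp))
    · simpa using (tendsto_pow_atTop_nhds_zero_of_lt_one (r := (1 / 2 : ℝ)) (by norm_num)
        (by norm_num)).const_mul (2 / 2 ^ K)
  · rw [e1, dist_comm]
    exact dist_le_of_le_geometric_two_of_tendsto₀ D hu

lemma gen : ∀ᶠ T : G in residual G, Q1 mu T.1 ∧ Q2 mu T.1 := by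
  have hA := eventually_countable_forall.2 fun p : ℕ => eventually_countable_forall.2 fun N : ℕ =>
    eventually_countable_forall.2 fun k : ℕ =>
      genA (2 ^ k) (2 ^ (k + 1)) (p + 1) N (ek_pos k) (ek_pos (k + 1))
  have hB := eventually_countable_forall.2 fun k : ℕ => genB (2 ^ k) (ek_pos k)
  have hC := eventually_countable_forall.2 fun a : ℕ =>
    eventually_countable_forall.2 fun F : Fin (a + 1) → Prop =>
    eventually_countable_forall.2 fun k : ℕ => genC (a + 1) F
      (show (0 : ℝ) < 1 / (k + 1) by positivity)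
  filter_upwards [hA, hB, hC] with T hA hB hC
  refine ⟨fun A mA ε hε => ?_, fun A mA η hη => ?_⟩
  · obtain ⟨H0, hH⟩ := approx mA (show 0 < ε / 5 by positivity)
    obtain ⟨F, hF⟩ := hH (H0 + 1) (by omega)
    obtain ⟨k, hk⟩ := exists_nat_one_div_lt (show 0 < ε / 5 by positivity)
    obtain ⟨n, hn⟩ := hC H0 F k
    refine ⟨n, ?_⟩
    have m : MeasurableSet {x | F (fin (H0 + 1) x)} :=
      fin_meas (MeasurableSet.of_discrete (s := {u | F u}))
    generalize {x | F (fin (H0 + 1) x)} = B at hF hn m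
    have hn' := T.2.iterate n
    have a1 := abs_measureReal_sub_le_measureReal_symmDiff (μ := mu) mA.nullMeasurableSet
      m.nullMeasurableSet
    have a2 := abs_measureReal_sub_le_measureReal_symmDiff (μ := mu)
      ((hn'.measurable mA).inter mA).nullMeasurableSet
      ((hn'.measurable m).inter m).nullMeasurableSet
    have a3 : mu.real (symmDiff ((⇑T.1)^[n] ⁻¹' A ∩ A) ((⇑T.1)^[n] ⁻¹' B ∩ B)) ≤
        mu.real (symmDiff A B) + mu.real (symmDiff A B) := by
      refine (measureReal_mono (s₂ := (⇑T.1)^[n] ⁻¹' (symmDiff A B) ∪ symmDiff A B)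
        fun x hx => ?_).trans ((measureReal_union_le _ _).trans (le_of_eq ?_))
      · simp only [mem_symmDiff, mem_inter_iff, mem_union, mem_preimage] at hx ⊢
        tauto
      · rw [hn'.measureReal_preimage (mA.symmDiff m).nullMeasurableSet]
    have b1 : 0 ≤ mu.real A := measureReal_nonneg
    have b2 : 0 ≤ mu.real B := measureReal_nonneg
    have b3 : mu.real A ≤ 1 := measureReal_le_one
    have b4 : mu.real B ≤ 1 := measureReal_le_one
    rw [abs_le] at a1 a2
    rw [abs_lt] at hn ⊢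
    constructor <;> nlinarith [a1.1, a1.2, a2.1, a2.2, hn.1, hn.2]
  · choose p S N hS p0 c1 c2 c3 using chain T hA hB
    have c4 : Conv mu S T.1 := by
      refine conv_of hS T.2 (tendsto_iff_dist_tendsto_zero.2 (squeeze_zero (fun _ => dist_nonneg)
        c3 ?_))
      simpa [div_eq_mul_inv] using (tendsto_pow_atTop_nhds_zero_of_lt_one (r := (1 / 2 : ℝ))
        (by norm_num) (by norm_num)).const_mul 4
    obtain ⟨K, hK⟩ := ((c4 A mA).eventually (gt_mem_nhds hη)).exists
    exact ⟨p K, S K, N K, p0 K, hS K, c1 K, c2 K, hK⟩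

end Pool.Agent.H.MP_5d8c24_an
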