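import Mathlib
import Pool.Agent.H.MP_5d8c24_an.C
import Pool.Agent.H.MP_a7cd30_an.B

namespace Pool.Agent.H.MP_5d8c24_an

open MeasureTheory Set Filter Topology ProbabilityTheory Pool.Agent.H.MP_a7cd30_an
  Pool.Agent.H.MP_20f905_an

lemma res_transfer {X Y : Type} [TopologicalSpace X] [TopologicalSpace Y] {Φ : X → Y} {Ψ : Y → X}
    (cΦ : Continuous Φ) (cΨ : Continuous Ψ)
    (h1 : ∀ x, ∀ W, IsOpen W → x ∈ W → Ψ (Φ x) ∈ W)
    (h2 : ∀ y, ∀ U, IsOpen U → y ∈ U → Φ (Ψ y) ∈ U) : Tendsto Φ (residual X) (residual Y) := by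
  apply le_countableGenerate_iff_of_countableInterFilter.mpr
  rintro t ⟨ht, htd⟩
  refine residual_of_dense_open (ht.preimage cΦ) (dense_iff_inter_open.2 fun W hW ⟨x, hx⟩ => ?_)
  obtain ⟨y, y1, y2⟩ := dense_iff_inter_open.1 htd _ (hW.preimage cΨ) ⟨Φ x, h1 x W hW hx⟩
  exact ⟨Ψ y, y1, h2 y t ht y2⟩

variable {α : Type} [mα : MeasurableSpace α] [StandardBorelSpace α] {μ : Measure α}

theorem realize' {f g : α → α} (hf : MeasurePreserving f μ μ) (hg : Measurable g)
    (hgf : ∀ᵐ x ∂μ, g (f x) = x) :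
    ∃ e : {e : α ≃ᵐ α // MeasurePreserving e.toFun μ μ}, ⇑e.1 =ᵐ[μ] f := by
  classical
  have hg' : MeasurePreserving g μ μ := by
    refine ⟨hg, ?_⟩
    conv_lhs => rw [← hf.map_eq]
    rw [Measure.map_map hg hf.measurable, Measure.map_congr (f := g ∘ f) (g := id) hgf,
      Measure.map_id]
  have hm1 : MeasurableSet {x | g (f x) = x} :=
    measurableSet_eq_fun (hg.comp hf.measurable) measurable_id
  have hm2 : MeasurableSet {x | f (g x) = x} :=
    measurableSet_eq_fun (hf.measurable.comp hg) measurable_id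
  have hfg : ∀ᵐ y ∂μ, f (g y) = y := by
    rw [← hf.map_eq, ae_map_iff hf.measurable.aemeasurable hm2]
    filter_upwards [hgf] with x hx
    rw [hx]
  let A : Set α := {x | g (f x) = x} ∩ {x | f (g x) = x}
  have hA : MeasurableSet A := hm1.inter hm2
  have hAae : ∀ᵐ x ∂μ, x ∈ A := hgf.and hfg
  let B : Set α := {x | ∀ n m : ℕ, f^[n] (g^[m] x) ∈ A}
  have hB : MeasurableSet B := by
    have : B = ⋂ n : ℕ, ⋂ m : ℕ, (f^[n] ∘ g^[m]) ⁻¹' A := by ext x; simp [B]
    rw [this]
    exact MeasurableSet.iInter fun n => MeasurableSet.iInter fun m =>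
      ((hf.measurable.iterate n).comp (hg.iterate m)) hA
  have hBae : ∀ᵐ x ∂μ, x ∈ B := by
    refine ae_all_iff.2 fun n => ae_all_iff.2 fun m => ?_
    exact ((hf.iterate n).comp (hg'.iterate m)).quasiMeasurePreserving.ae hAae
  have hBA : ∀ x ∈ B, x ∈ A := fun x hx => hx 0 0
  have hBg : ∀ x ∈ B, g x ∈ B := fun x hx n m => by
    rw [← Function.iterate_succ_apply]; exact hx n (m + 1)
  have hBf : ∀ x ∈ B, f x ∈ B := fun x hx n m => by
    cases m with
    | zero => exact hx (n + 1) 0
    | succ m =>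
      rw [Function.iterate_succ_apply, (hBA x hx).1]
      exact hx n m
  let e : α ≃ᵐ α :=
    { toFun := B.piecewise f id
      invFun := B.piecewise g id
      left_inv := fun x => by
        by_cases hx : x ∈ B
        · rw [piecewise_eq_of_mem _ _ _ hx, piecewise_eq_of_mem _ _ _ (hBf x hx)]
          exact (hBA x hx).1
        · rw [piecewise_eq_of_notMem _ _ _ hx, id, piecewise_eq_of_notMem _ _ _ hx, id]
      right_inv := fun x => by
        by_cases hx : x ∈ B
        · rw [piecewise_eq_of_mem _ _ _ hx, piecewise_eq_of_mem _ _ _ (hBg x hx)]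
          exact (hBA x hx).2
        · rw [piecewise_eq_of_notMem _ _ _ hx, id, piecewise_eq_of_notMem _ _ _ hx, id]
      measurable_toFun := hf.measurable.piecewise hB measurable_id
      measurable_invFun := hg.piecewise hB measurable_id }
  have he : ⇑e =ᵐ[μ] f := hBae.mono fun x hx => piecewise_eq_of_mem _ _ _ hx
  exact ⟨⟨e, hf.congr e.measurable he.symm⟩, he⟩

theorem iso [IsProbabilityMeasure μ] [NullSingletonClass μ] :
    ∃ (f : α → ℝ) (g : ℝ → α), MeasurePreserving f μ mu ∧ MeasurePreserving g mu μ ∧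
      (∀ᵐ x ∂μ, g (f x) = x) ∧ ∀ᵐ y ∂mu, f (g y) = y := by
  classical
  have : Nonempty α := nonempty_of_isProbabilityMeasure μ
  have hemb0 := measurableEmbedding_embeddingReal α
  set ψ := embeddingReal α
  have hψ := hemb0.measurable
  have hi := hemb0.injective
  have : IsProbabilityMeasure (μ.map ψ) := Measure.isProbabilityMeasure_map hψ.aemeasurable
  set ν := μ.map ψ with hν
  have hat : ∀ y, ν {y} = 0 := fun y => by
    rw [hν, Measure.map_apply hψ (measurableSet_singleton y)]
    exact (subsingleton_singleton.preimage hi).measure_zero _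
  have h1 : MeasurePreserving (cdf ν ∘ ψ) μ mu := (cdf_mp ν hat).comp ⟨hψ, rfl⟩
  let E : Set α := ⋂ q : ℚ, {x | ψ x ≤ q} ∪ {x | cdf ν q < cdf ν (ψ x)}
  have hE : MeasurableSet E := MeasurableSet.iInter fun q =>
    (measurableSet_le hψ measurable_const).union
      (measurableSet_lt measurable_const h1.measurable)
  have hEae : ∀ᵐ x ∂μ, x ∈ E := by
    simp only [E, mem_iInter]
    refine ae_all_iff.2 fun q => ?_
    have : ∀ᵐ y ∂mu, y ≠ cdf ν q := Measure.ae_ne _ _
    filter_upwards [h1.quasiMeasurePreserving.ae this] with x hx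
    rcases le_or_gt (ψ x) q with h | h
    · exact Or.inl h
    · exact Or.inr (lt_of_le_of_ne (monotone_cdf ν h.le) (Ne.symm hx))
  have hlt : ∀ x y, y ∈ E → ψ x < ψ y → cdf ν (ψ x) < cdf ν (ψ y) := by
    intro x y hy hxy
    obtain ⟨q, hq1, hq2⟩ := exists_rat_btwn hxy
    rcases mem_iInter.1 hy q with h | h
    · exact absurd h (not_le.2 hq2)
    · exact (monotone_cdf ν hq1.le).trans_lt h
  let R1 : α → ℝ := E.piecewise (cdf ν ∘ ψ) fun x => 2 + Real.exp (ψ x)
  have hR1 : Measurable R1 := h1.measurable.piecewise hE (by fun_prop)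
  have hinj : Function.Injective R1 := by
    intro x y hxy
    by_cases hx : x ∈ E <;> by_cases hy : y ∈ E
    · simp only [R1, piecewise_eq_of_mem _ _ _ hx, piecewise_eq_of_mem _ _ _ hy,
        Function.comp] at hxy
      rcases lt_trichotomy (ψ x) (ψ y) with h | h | h
      · exact absurd hxy (hlt x y hy h).ne
      · exact hi h
      · exact absurd hxy.symm (hlt y x hx h).ne
    · simp only [R1, piecewise_eq_of_mem _ _ _ hx, piecewise_eq_of_notMem _ _ _ hy,
        Function.comp] at hxy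
      linarith [cdf_le_one ν (ψ x), Real.exp_pos (ψ y)]
    · simp only [R1, piecewise_eq_of_notMem _ _ _ hx, piecewise_eq_of_mem _ _ _ hy,
        Function.comp] at hxy
      linarith [cdf_le_one ν (ψ y), Real.exp_pos (ψ x)]
    · simp only [R1, piecewise_eq_of_notMem _ _ _ hx, piecewise_eq_of_notMem _ _ _ hy] at hxy
      exact hi (Real.exp_injective (add_left_cancel hxy))
  have hemb := hR1.measurableEmbedding hinj
  have hg := hemb.measurable_invFun
  have hgf : ∀ᵐ x ∂μ, hemb.invFun ((cdf ν ∘ ψ) x) = x := hEae.mono fun x hx => by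
    have : (cdf ν ∘ ψ) x = R1 x := (piecewise_eq_of_mem _ _ _ hx).symm
    rw [this, hemb.leftInverse_invFun]
  refine ⟨cdf ν ∘ ψ, hemb.invFun, h1, ⟨hg, ?_⟩, hgf, ?_⟩
  · rw [← h1.map_eq, Measure.map_map hg h1.measurable,
      Measure.map_congr (f := hemb.invFun ∘ (cdf ν ∘ ψ)) (g := id) hgf, Measure.map_id]
  · have hm : MeasurableSet {y | (cdf ν ∘ ψ) (hemb.invFun y) = y} :=
      measurableSet_eq_fun (h1.measurable.comp hg) measurable_id
    rw [← h1.map_eq, ae_map_iff h1.measurable.aemeasurable hm]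
    filter_upwards [hgf] with x hx
    exact congrArg _ hx

omit [StandardBorelSpace α] in
theorem transfer {f : α → ℝ} {g : ℝ → α} (hf : MeasurePreserving f μ mu)
    (hg : MeasurePreserving g mu μ) (gf : ∀ᵐ x ∂μ, g (f x) = x) {T : α → α}
    (hT : MeasurePreserving T μ μ) {U : ℝ → ℝ} (hU : MeasurePreserving U mu mu)
    (h : ∀ᵐ x ∂μ, f (T x) = U (f x)) (q : Q1 mu U ∧ Q2 mu U) : Q1 μ T ∧ Q2 μ T := by
  have it : ∀ n : ℕ, ∀ᵐ x ∂μ, f (T^[n] x) = U^[n] (f x) := fun n => by
    induction n with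
    | zero => exact Eventually.of_forall fun _ => rfl
    | succ n ih =>
      filter_upwards [ih, (hT.iterate n).quasiMeasurePreserving.ae h] with x h1 h2
      rw [Function.iterate_succ_apply', Function.iterate_succ_apply', h2, h1]
  have e : ∀ (n : ℕ) (B : Set α), T^[n] ⁻¹' B =ᵐ[μ] f ⁻¹' (U^[n] ⁻¹' (g ⁻¹' B)) := fun n B => by
    filter_upwards [it n, (hT.iterate n).quasiMeasurePreserving.ae gf] with x h1 h2
    show (T^[n] x ∈ B) = (g (U^[n] (f x)) ∈ B)
    rw [← h1, h2]
  refine ⟨fun A hA ε hε => ?_, fun A hA η hη => ?_⟩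
  · obtain ⟨n, hn⟩ := q.1 _ (hg.measurable hA) ε hε
    refine ⟨n, ?_⟩
    have e0 : A =ᵐ[μ] f ⁻¹' (g ⁻¹' A) := e 0 A
    rw [measureReal_congr ((e n A).inter e0), ← preimage_inter,
      hf.measureReal_preimage (((hU.iterate n).measurable (hg.measurable hA)).inter
        (hg.measurable hA)).nullMeasurableSet,
      ← hg.measureReal_preimage hA.nullMeasurableSet]
    exact hn
  · obtain ⟨p, S, N, p0, hS, c1, c2, c3⟩ := q.2 _ (hg.measurable hA) η hη
    refine ⟨p, g ∘ S ∘ f, N, p0, hg.comp (hS.comp hf), fun B hB => ?_, fun B hB => ?_, ?_⟩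
    · refine (c1 _ (hg.measurable hB)).congr fun m => ?_
      rw [← hf.measure_preimage (((hU.iterate _).measurable (hg.measurable hB)).symmDiff
        (hS.measurable (hg.measurable hB))).nullMeasurableSet, preimage_symmDiff]
      exact (measure_congr ((e _ B).symmDiff (ae_eq_refl _))).symm
    · refine (c2 _ (hg.measurable hB)).congr fun m => ?_
      rw [← hf.measure_preimage (((hU.iterate _).measurable (hg.measurable hB)).symmDiff
        (measurable_id (hg.measurable hB))).nullMeasurableSet, preimage_symmDiff]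
      exact (measure_congr ((e _ B).symmDiff (e 0 B))).symm
    · rw [← hf.measure_preimage ((hS.measurable (hg.measurable hA)).symmDiff
        (hU.measurable (hg.measurable hA))).nullMeasurableSet, preimage_symmDiff] at c3
      exact (measure_congr ((ae_eq_refl _).symmDiff (e 1 A))).trans_lt c3

/-- the weak topology -/
@[reducible] noncomputable def ta (μ : Measure α) :
    TopologicalSpace {e : α ≃ᵐ α // MeasurePreserving e.toFun μ μ} :=
  ⨅ (A : Set α) (B : Set α) (_ : MeasurableSet A) (_ : MeasurableSet B),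
    TopologicalSpace.induced
      (fun T : {e : α ≃ᵐ α // MeasurePreserving e.toFun μ μ} =>
        μ (symmDiff (Set.preimage T.1.toFun A) B)) inferInstance

theorem gen' [IsProbabilityMeasure μ] [NullSingletonClass μ] :
    ∀ᶠ T in @residual _ (ta μ), Q1 μ T.1 ∧ Q2 μ T.1 := by
  let _ := ta μ
  obtain ⟨f, g, hf, hg, gf, fg⟩ := iso (μ := μ)
  have a : ∀ T : {e : α ≃ᵐ α // MeasurePreserving e.toFun μ μ}, ∃ U : G,
      ∀ᵐ x ∂μ, f (T.1 x) = U.1 (f x) := fun T => by
    have hT : MeasurePreserving T.1 μ μ := T.2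
    obtain ⟨U, hU, -⟩ := realize (hf.comp (hT.comp hg))
      (hf.measurable.comp (T.1.symm.measurable.comp hg.measurable)) (by
        filter_upwards [fg, (hT.comp hg).quasiMeasurePreserving.ae gf] with y h1 h2
        simp only [Function.comp] at h2 ⊢
        rw [h2, T.1.symm_apply_apply, h1])
    refine ⟨U, ?_⟩
    filter_upwards [hf.quasiMeasurePreserving.ae hU, gf] with x h1 h2
    rw [h1]; simp only [Function.comp, h2]
  have b : ∀ U : G, ∃ T : {e : α ≃ᵐ α // MeasurePreserving e.toFun μ μ},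
      ∀ᵐ y ∂mu, g (U.1 y) = T.1 (g y) := fun U => by
    obtain ⟨T, hT⟩ := realize' (hg.comp (U.2.comp hf))
      (hg.measurable.comp (U.1.symm.measurable.comp hf.measurable)) (by
        filter_upwards [gf, (U.2.comp hf).quasiMeasurePreserving.ae fg] with y h1 h2
        simp only [Function.comp] at h2 ⊢
        rw [h2, U.1.symm_apply_apply, h1])
    refine ⟨T, ?_⟩
    filter_upwards [hg.quasiMeasurePreserving.ae hT, fg] with x h1 h2
    rw [h1]; simp only [Function.comp, h2]
  choose Φ hΦ using a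
  choose Ψ hΨ using b
  have cΦ : Continuous Φ := by
    refine Eq.subst (motive := fun t => Continuous[_, t] Φ) fz_eq
      (continuous_generateFrom_iff.2 ?_)
    rintro _ ⟨T₀, A, hA, δ, -, rfl⟩
    have c : Continuous fun T : {e : α ≃ᵐ α // MeasurePreserving e.toFun μ μ} =>
        μ (symmDiff (Set.preimage T.1.toFun (f ⁻¹' A)) (f ⁻¹' (T₀.1 ⁻¹' A))) :=
      continuous_iff_le_induced.2 (iInf_le_of_le _ (iInf_le_of_le _ (iInf_le_of_le
        (hf.measurable hA) (iInf_le_of_le (hf.measurable (T₀.1.measurable hA)) le_rfl))))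
    convert isOpen_lt c (continuous_const (y := ENNReal.ofReal δ)) using 1
    ext T
    rw [mem_preimage, mem_ofPred_eq, mem_ofPred_eq, ← hf.measure_preimage
      (((Φ T).1.measurable hA).symmDiff (T₀.1.measurable hA)).nullMeasurableSet, preimage_symmDiff,
      measure_congr (EventuallyEq.symmDiff (t := T.1.toFun ⁻¹' (f ⁻¹' A)) ?_ (ae_eq_refl _))]
    filter_upwards [hΦ T] with x hx
    show ((Φ T).1 (f x) ∈ A) = (f (T.1 x) ∈ A)
    rw [hx]
  have cΨ : Continuous Ψ := by
    refine continuous_iInf_rng.2 fun A => continuous_iInf_rng.2 fun B =>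
      continuous_iInf_rng.2 fun hA => continuous_iInf_rng.2 fun hB =>
      continuous_induced_rng.2 ?_
    refine (ENNReal.continuous_ofReal.comp (cont_sd (hg.measurable hA)
      (hg.measurable hB))).congr fun U => ?_
    simp only [Function.comp]
    rw [ofReal_measureReal (measure_ne_top _ _), ← hg.measure_preimage
      (((Ψ U).2.measurable hA).symmDiff hB).nullMeasurableSet, preimage_symmDiff]
    refine measure_congr (EventuallyEq.symmDiff ?_ (ae_eq_refl _))
    filter_upwards [hΨ U] with x hx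
    show (g (U.1 x) ∈ A) = ((Ψ U).1 (g x) ∈ A)
    rw [hx]
  have key := res_transfer cΦ cΨ (fun T W hW hT => ?_) fun U W hW hU => ?_
  · filter_upwards [key.eventually gen] with T hT
    exact transfer hf hg gf T.2 (Φ T).2 (hΦ T) hT
  · have e : ⇑(Ψ (Φ T)).1 =ᵐ[μ] T.1 := by
      have hT : MeasurePreserving T.1 μ μ := T.2
      filter_upwards [hf.quasiMeasurePreserving.ae (hΨ (Φ T)), hΦ T, gf,
        hT.quasiMeasurePreserving.ae gf] with x h1 h2 h3 h4
      rw [← h4, h2, h1, h3]
    have : 𝓝 (Ψ (Φ T)) = 𝓝 T := by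
      simp only [nhds_iInf, nhds_induced]
      refine iInf_congr fun A => iInf_congr fun B => iInf_congr fun _ => iInf_congr fun _ => ?_
      congr 2
      refine measure_congr (EventuallyEq.symmDiff ?_ (ae_eq_refl _))
      filter_upwards [e] with x hx
      show ((Ψ (Φ T)).1 x ∈ A) = (T.1 x ∈ A)
      rw [hx]
    exact mem_of_mem_nhds (this ▸ hW.mem_nhds hT)
  · have e : ⇑(Φ (Ψ U)).1 =ᵐ[mu] U.1 := by
      filter_upwards [hg.quasiMeasurePreserving.ae (hΦ (Ψ U)), hΨ U, fg,
        U.2.quasiMeasurePreserving.ae fg] with x h1 h2 h3 h4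
      rw [← h4, h2, h1, h3]
    have e2 : koop _ (Φ (Ψ U)).2 idL = koop _ U.2 idL :=
      Lp.ext ((koop_id _).trans (e.trans (koop_id _).symm))
    exact ((tend_of (F := fun _ : ℕ => Φ (Ψ U)) (L := atTop) (T := U)
      (by rw [e2]; exact tendsto_const_nhds)).eventually (hW.mem_nhds hU)).exists.choose_spec

end Pool.Agent.H.MP_5d8c24_an
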